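import Mathlib

set_option autoImplicit false

/-! Finitely additive invariant measures on the Borel sets from Følner sets, and expansion in
non-amenable locally compact groups. -/

namespace Pool.Agent.H931R2.Mean

open MeasureTheory Filter Topology
open scoped Pointwise ENNReal

variable {G : Type*} [Group G] [TopologicalSpace G] [IsTopologicalGroup G]
  [LocallyCompactSpace G] [T2Space G] [MeasurableSpace G] [BorelSpace G]

/-- A finitely additive left invariant probability on the Borel sets. -/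
def HasMean (G : Type*) [Group G] [MeasurableSpace G] : Prop :=
  ∃ μ : Set G → ℝ,
    (∀ s, MeasurableSet s → 0 ≤ μ s) ∧
    μ Set.univ = 1 ∧
    (∀ s t, MeasurableSet s → MeasurableSet t → Disjoint s t → μ (s ∪ t) = μ s + μ t) ∧
    (∀ (a : G) (s : Set G), MeasurableSet s → μ ((fun x => a * x) '' s) = μ s)

theorem mean_of_folner (ν : Measure G) [ν.IsMulLeftInvariant]
    (hF : ∀ (S : Finset G) (n : ℕ), ∃ A : Set G, MeasurableSet A ∧ 0 < ν A ∧ ν A < ∞ ∧
      ∀ s ∈ S, (ν ((s • A) \ A)).toReal ≤ (1 / ((n : ℝ) + 1)) * (ν A).toReal) :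
    HasMean G := by
  classical
  choose A hAm hA0 hAfin hA using hF
  have hpos : ∀ p : Finset G × ℕ, 0 < (ν (A p.1 p.2)).toReal := fun p =>
    ENNReal.toReal_pos (hA0 _ _).ne' (hAfin _ _).ne
  let m : Set G → Finset G × ℕ → ℝ := fun B p =>
    (ν (B ∩ A p.1 p.2)).toReal / (ν (A p.1 p.2)).toReal
  have hfinI : ∀ (B : Set G) (p : Finset G × ℕ), ν (B ∩ A p.1 p.2) ≠ ∞ := fun B p =>
    ((measure_mono Set.inter_subset_right).trans_lt (hAfin _ _)).ne
  have hm0 : ∀ B p, 0 ≤ m B p := fun B p => by positivity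
  have hm1 : ∀ B p, m B p ≤ 1 := by
    intro B p
    refine (div_le_one (hpos p)).2 ?_
    exact ENNReal.toReal_mono (hAfin _ _).ne (measure_mono Set.inter_subset_right)
  haveI : (atTop : Filter (Finset G × ℕ)).NeBot := inferInstance
  let U : Ultrafilter (Finset G × ℕ) := Ultrafilter.of atTop
  have hU : (U : Filter (Finset G × ℕ)) ≤ atTop := Ultrafilter.of_le _
  have hlim : ∀ B, ∃ x : ℝ, Tendsto (m B) U (𝓝 x) := by
    intro B
    have hc : IsCompact (Set.Icc (0 : ℝ) 1) := isCompact_Icc
    obtain ⟨x, -, hx⟩ := hc.ultrafilter_le_nhds (U.map (m B)) (by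
      rw [Ultrafilter.coe_map, le_principal_iff, mem_map]
      exact univ_mem' fun p => ⟨hm0 B p, hm1 B p⟩)
    exact ⟨x, hx⟩
  choose μ hμ using hlim
  refine ⟨μ, ?_, ?_, ?_, ?_⟩
  · intro s _
    exact ge_of_tendsto' (hμ s) (hm0 s)
  · refine tendsto_nhds_unique (hμ Set.univ) ?_
    have : m Set.univ = fun _ => 1 := by
      funext p
      show (ν (Set.univ ∩ A p.1 p.2)).toReal / (ν (A p.1 p.2)).toReal = 1
      rw [Set.univ_inter]
      exact div_self (hpos p).ne'
    rw [this]
    exact tendsto_const_nhds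
  · intro s t hs ht hst
    refine tendsto_nhds_unique (hμ (s ∪ t)) ?_
    have : m (s ∪ t) = fun p => m s p + m t p := by
      funext p
      show (ν ((s ∪ t) ∩ A p.1 p.2)).toReal / (ν (A p.1 p.2)).toReal =
        (ν (s ∩ A p.1 p.2)).toReal / (ν (A p.1 p.2)).toReal +
        (ν (t ∩ A p.1 p.2)).toReal / (ν (A p.1 p.2)).toReal
      rw [← add_div, ← ENNReal.toReal_add (hfinI s p) (hfinI t p), Set.union_inter_distrib_right,
        measure_union (hst.mono Set.inter_subset_left Set.inter_subset_left)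
          (ht.inter (hAm _ _))]
    rw [this]
    exact (hμ s).add (hμ t)
  · intro a s hs
    refine tendsto_nhds_unique (hμ _) ?_
    have key : ∀ p : Finset G × ℕ, a ∈ p.1 → a⁻¹ ∈ p.1 →
        |m ((fun x => a * x) '' s) p - m s p| ≤ 1 / ((p.2 : ℝ) + 1) := by
      intro p ha ha'
      set B := A p.1 p.2 with hB
      have himg : (fun x => a * x) '' s = a • s := by
        rw [← Set.image_smul]; rfl
      have e1 : ν ((a • s) ∩ B) = ν (s ∩ (a⁻¹ • B)) := by
        rw [← measure_smul (μ := ν) a⁻¹ ((a • s) ∩ B), Set.smul_set_inter, inv_smul_smul]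
      have i1 : (ν (s ∩ (a⁻¹ • B))).toReal ≤ (ν (s ∩ B)).toReal + (ν ((a⁻¹ • B) \ B)).toReal := by
        rw [← ENNReal.toReal_add (hfinI s p)
          ((measure_mono Set.diff_subset).trans_lt (by rw [measure_smul]; exact hAfin _ _)).ne]
        refine ENNReal.toReal_mono ?_ ?_
        · exact ENNReal.add_ne_top.2 ⟨hfinI s p,
            ((measure_mono Set.diff_subset).trans_lt (by rw [measure_smul]; exact hAfin _ _)).ne⟩
        · refine (measure_mono ?_).trans (measure_union_le _ _)
          intro x hx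
          by_cases hxB : x ∈ B
          · exact Or.inl ⟨hx.1, hxB⟩
          · exact Or.inr ⟨hx.2, hxB⟩
      have e2 : ν (B \ (a⁻¹ • B)) = ν ((a • B) \ B) := by
        rw [← measure_smul (μ := ν) a (B \ (a⁻¹ • B)), Set.smul_set_sdiff, smul_inv_smul]
      have i2 : (ν (s ∩ B)).toReal ≤ (ν (s ∩ (a⁻¹ • B))).toReal + (ν ((a • B) \ B)).toReal := by
        have f1 : ν (s ∩ (a⁻¹ • B)) ≠ ∞ :=
          ((measure_mono Set.inter_subset_right).trans_lt
            (by rw [measure_smul]; exact hAfin _ _)).ne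
        have f2 : ν ((a • B) \ B) ≠ ∞ :=
          ((measure_mono Set.diff_subset).trans_lt (by rw [measure_smul]; exact hAfin _ _)).ne
        rw [← ENNReal.toReal_add f1 f2]
        refine ENNReal.toReal_mono (ENNReal.add_ne_top.2 ⟨f1, f2⟩) ?_
        rw [← e2]
        refine (measure_mono ?_).trans (measure_union_le _ _)
        intro x hx
        by_cases hxB : x ∈ a⁻¹ • B
        · exact Or.inl ⟨hx.1, hxB⟩
        · exact Or.inr ⟨hx.2, hxB⟩
      have h1 := hA p.1 p.2 a ha
      have h2 := hA p.1 p.2 a⁻¹ ha'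
      show |(ν ((fun x => a * x) '' s ∩ B)).toReal / (ν B).toReal -
        (ν (s ∩ B)).toReal / (ν B).toReal| ≤ _
      rw [himg, e1, ← sub_div, abs_div, abs_of_pos (hpos p), div_le_iff₀ (hpos p), abs_le]
      constructor <;> linarith
    have hz : Tendsto (fun p : Finset G × ℕ => m ((fun x => a * x) '' s) p - m s p) U (𝓝 0) := by
      refine Tendsto.mono_left ?_ hU
      rw [← prod_atTop_atTop_eq]
      refine squeeze_zero_norm' (a := fun p : Finset G × ℕ => 1 / ((p.2 : ℝ) + 1)) ?_ ?_
      · have h1 : ∀ᶠ p : Finset G in atTop, {a, a⁻¹} ⊆ p := eventually_ge_atTop _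
        filter_upwards [h1.prod_inl (atTop : Filter ℕ)] with p hp
        rw [Real.norm_eq_abs]
        exact key p (hp (by simp)) (hp (by simp))
      · exact (tendsto_one_div_add_atTop_nhds_zero_nat).comp tendsto_snd
    have := (hμ s).add hz
    simpa using this

/-- Expansion in groups without a mean. -/
theorem expansion (ν : Measure G) [ν.IsMulLeftInvariant] [IsFiniteMeasureOnCompacts ν]
    (hna : ¬ HasMean G) (t : ℝ) :
    ∃ S : Finset G, 1 ∈ S ∧ ∀ A : Set G, IsCompact A → 0 < ν A →
      t * (ν A).toReal ≤ (ν ((S : Set G) * A)).toReal := by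
  classical
  by_contra hcon
  push Not at hcon
  apply hna
  apply mean_of_folner ν
  intro S n
  set ε : ℝ := 1 / ((n : ℝ) + 1) with hε
  have hε0 : 0 < ε := by positivity
  obtain ⟨k, hk⟩ := pow_unbounded_of_one_lt t (show 1 < 1 + ε by linarith)
  set S' : Finset G := insert 1 S with hS'
  have h1S' : (1 : G) ∈ S' := Finset.mem_insert_self _ _
  obtain ⟨A, hA, hA0, hlt⟩ := hcon (S' ^ k) (Finset.one_mem_pow h1S')
  have hcomp : ∀ j : ℕ, IsCompact ((S' : Set G) ^ j * A) := by
    intro j
    refine IsCompact.mul ?_ hA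
    rw [← Finset.coe_pow]
    exact (Finset.finite_toSet _).isCompact
  set a : ℕ → ℝ := fun j => (ν ((S' : Set G) ^ j * A)).toReal with ha
  have hfin : ∀ j, ν ((S' : Set G) ^ j * A) ≠ ∞ := fun j => (hcomp j).measure_lt_top.ne
  have ha0 : a 0 = (ν A).toReal := by simp [ha]
  have hAfin : ν A < ∞ := hA.measure_lt_top
  have hApos : 0 < (ν A).toReal := ENNReal.toReal_pos hA0.ne' hAfin.ne
  have hak : a k < t * (ν A).toReal := by
    rw [Finset.coe_pow] at hlt
    exact hlt
  have hex : ∃ j, j < k ∧ a (j + 1) ≤ (1 + ε) * a j := by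
    by_contra hno
    push Not at hno
    have : ∀ j ≤ k, (1 + ε) ^ j * a 0 ≤ a j := by
      intro j
      induction j with
      | zero => intro _; simp
      | succ j ih =>
        intro hj
        have h1 := ih (by omega)
        have h2 := hno j (by omega)
        calc (1 + ε) ^ (j + 1) * a 0 = (1 + ε) * ((1 + ε) ^ j * a 0) := by ring
          _ ≤ (1 + ε) * a j := by gcongr
          _ ≤ a (j + 1) := h2.le
    have h1 := this k le_rfl
    rw [ha0] at h1
    have : t * (ν A).toReal ≤ (1 + ε) ^ k * (ν A).toReal := by gcongr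
    linarith
  obtain ⟨j, -, hj⟩ := hex
  set B := (S' : Set G) ^ j * A with hB
  have hBsub : B ⊆ (S' : Set G) ^ (j + 1) * A := by
    rw [hB]
    exact Set.mul_subset_mul_right (Set.pow_subset_pow_right (by exact_mod_cast h1S') (by omega))
  have hAB : A ⊆ B := by
    intro x hx
    exact ⟨1, Set.one_mem_pow (by exact_mod_cast h1S'), x, hx, one_mul x⟩
  have hB0 : 0 < ν B := hA0.trans_le (measure_mono hAB)
  have hBfin : ν B < ∞ := (hcomp j).measure_lt_top
  refine ⟨B, (hcomp j).measurableSet, hB0, hBfin, ?_⟩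
  intro s hs
  have hsub : (s • B) \ B ⊆ ((S' : Set G) ^ (j + 1) * A) \ B := by
    apply Set.diff_subset_diff_left
    rintro _ ⟨y, hy, rfl⟩
    rw [hB] at hy
    obtain ⟨p, hp, q, hq, rfl⟩ := hy
    refine ⟨s * p, ?_, q, hq, ?_⟩
    · rw [pow_succ']
      exact Set.mul_mem_mul (by simp [hS', hs]) hp
    · simp [mul_assoc]
  have hd : (ν (((S' : Set G) ^ (j + 1) * A) \ B)).toReal = a (j + 1) - a j := by
    rw [measure_diff hBsub (hcomp j).measurableSet.nullMeasurableSet hBfin.ne,
      ENNReal.toReal_sub_of_le (measure_mono hBsub) (hfin (j + 1))]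
  have h1 : (ν ((s • B) \ B)).toReal ≤ (ν (((S' : Set G) ^ (j + 1) * A) \ B)).toReal :=
    ENNReal.toReal_mono ((measure_mono Set.diff_subset).trans_lt
      (hcomp (j + 1)).measure_lt_top).ne (measure_mono hsub)
  rw [hd] at h1
  have h2 : (ν B).toReal = a j := rfl
  rw [h2]
  linarith

end Pool.Agent.H931R2.Mean
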