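import Mathlib
import Pool.Agent.H931R2.Haxell
import Pool.Agent.H931R2.Mean

set_option autoImplicit false

/-! Tarski's theorem with closed pieces for locally compact groups: a locally compact group
without a finitely additive left invariant probability on its Borel sets has a paradoxical
decomposition into finitely many closed pieces. -/

namespace Pool.Agent.H931R2.BorelTarski

open MeasureTheory Filter Topology
open scoped Pointwise ENNReal
open Pool.Agent.H931R2.Mean

variable {G : Type*} [Group G] [TopologicalSpace G] [IsTopologicalGroup G]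
  [LocallyCompactSpace G] [T2Space G] [MeasurableSpace G] [BorelSpace G]

/-- A maximal family of disjoint left translates of `V`. -/
lemma exists_net (V : Set G) (hV : V.Nonempty) : ∃ D : Set G,
    D.PairwiseDisjoint (fun d => d • V) ∧ ∀ x, ∃ d ∈ D, x ∈ d • (V * V⁻¹) := by
  obtain ⟨D, hD⟩ := zorn_subset {D : Set G | D.PairwiseDisjoint (fun d => d • V)} (by
    intro c hc hchain
    refine ⟨⋃₀ c, ?_, fun s hs => Set.subset_sUnion_of_mem hs⟩
    exact (Set.pairwiseDisjoint_sUnion hchain.directedOn).2 hc)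
  refine ⟨D, hD.prop, fun x => ?_⟩
  by_contra hno
  push Not at hno
  have hdis : ∀ d ∈ D, Disjoint (x • V) (d • V) := by
    intro d hd
    rw [Set.disjoint_left]
    rintro _ ⟨v, hv, rfl⟩ ⟨w, hw, hvw⟩
    apply hno d hd
    refine ⟨w * v⁻¹, ⟨w, hw, v⁻¹, by simpa using hv, rfl⟩, ?_⟩
    simp only [smul_eq_mul] at hvw ⊢
    rw [← mul_assoc, hvw]
    group
  have hins : (insert x D).PairwiseDisjoint (fun d => d • V) := by
    rw [Set.pairwiseDisjoint_insert]
    exact ⟨hD.prop, fun d hd _ => hdis d hd⟩
  have hxD : x ∈ D := hD.le_of_ge hins (Set.subset_insert _ _) (Set.mem_insert _ _)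
  have := hdis x hxD
  rw [disjoint_self] at this
  simp only [Set.bot_eq_empty] at this
  exact (hV.smul_set (a := x)).ne_empty this

/-- The family of translates of a compact set along a net is locally finite. -/
lemma locFin (ν : Measure G) [ν.IsMulLeftInvariant] [IsFiniteMeasureOnCompacts ν]
    (V : Set G) (hVc : IsCompact V) (hV1 : V ∈ 𝓝 (1 : G)) (hVpos : 0 < ν V) (U : Set G)
    (hU : IsCompact U) (D : Set G) (hD : D.PairwiseDisjoint (fun d => d • V)) :
    LocallyFinite (fun d : D => (d : G) • U) := by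
  intro x
  refine ⟨x • V, ?_, ?_⟩
  · have := smul_mem_nhds_smul x hV1
    simpa using this
  · set E : Set D := {d : D | (((d : G) • U) ∩ (x • V)).Nonempty} with hE
    set Q : Set G := x • (V * U⁻¹ * V) with hQ
    have hQc : IsCompact Q := ((hVc.mul hU.inv).mul hVc).smul x
    have hsub : ∀ d ∈ E, (d : G) • V ⊆ Q := by
      rintro d ⟨y, ⟨u, hu, rfl⟩, ⟨v, hv, hvy⟩⟩ _ ⟨w, hw, rfl⟩
      refine ⟨v * u⁻¹ * w, ⟨v * u⁻¹, ⟨v, hv, u⁻¹, by simpa using hu, rfl⟩, w, hw, rfl⟩, ?_⟩
      simp only [smul_eq_mul] at hvy ⊢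
      rw [← mul_assoc, ← mul_assoc, hvy]
      group
    have := Measure.finite_const_le_meas_of_disjoint_iUnion ν hVpos
      (As := fun d : E => ((d : D) : G) • V) (fun d => (hVc.smul _).measurableSet) (by
        intro d d' hne
        exact hD d.1.2 d'.1.2 (fun h => hne (Subtype.ext (Subtype.ext h)))) (by
        refine ((measure_mono ?_).trans_lt hQc.measure_lt_top).ne
        exact Set.iUnion_subset fun d => hsub d.1 d.2)
    have h2 : {i : E | ν V ≤ ν (((i : D) : G) • V)} = Set.univ := by
      ext i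
      simp [measure_smul]
    rw [h2] at this
    have h3 : Finite E := Set.finite_univ_iff.1 this
    exact Set.toFinite E

/-- The transversal: two disjoint packings of all the cells by finitely many translations. -/
theorem packing (hna : ¬ HasMean G) : ∃ (U : Set G) (D : Set G) (S : Finset G)
    (f : D × Bool → S), IsClosed U ∧ LocallyFinite (fun d : D => (d : G) • U) ∧
    (∀ x, ∃ d : D, x ∈ (d : G) • U) ∧
    ∀ i j : D × Bool, i ≠ j →
      Disjoint (((f i : G) * (i.1 : G)) • U) (((f j : G) * (j.1 : G)) • U) := by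
  classical
  let ν : Measure G := Measure.haar
  obtain ⟨V, hVc, hV1⟩ := exists_compact_mem_nhds (1 : G)
  have h1V : (1 : G) ∈ V := mem_of_mem_nhds hV1
  have hVpos : 0 < ν V := Measure.measure_pos_of_mem_nhds ν hV1
  set U : Set G := V * V⁻¹ with hU
  have hUc : IsCompact U := hVc.mul hVc.inv
  have hVU : V ⊆ U := fun v hv => ⟨v, hv, 1, by simpa using h1V, mul_one v⟩
  set W : Set G := U * U⁻¹ * U with hW
  have hWc : IsCompact W := (hUc.mul hUc.inv).mul hUc
  have hVr : 0 < (ν V).toReal := ENNReal.toReal_pos hVpos.ne' hVc.measure_lt_top.ne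
  obtain ⟨S, h1S, hS⟩ := expansion ν hna (4 * (ν W).toReal / (ν V).toReal + 1)
  obtain ⟨D, hD, hcov⟩ := exists_net V ⟨1, h1V⟩
  haveI : Nonempty S := ⟨⟨1, h1S⟩⟩
  let adj : (D × Bool) × S → (D × Bool) × S → Prop := fun a b =>
    ¬ Disjoint (((a.2 : G) * (a.1.1 : G)) • U) (((b.2 : G) * (b.1.1 : G)) • U)
  obtain ⟨f, hf⟩ := Haxell.infinite (adj := adj) (fun a b h h' => h h'.symm) (by
    intro K hK Z hZ
    by_contra hcon
    push Not at hcon
    set F : Finset D := K.image Prod.fst with hF
    have hFne : F.Nonempty := hK.image _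
    have hKF : K.card ≤ F.card * 2 := by
      have : K ⊆ F ×ˢ (Finset.univ : Finset Bool) := by
        intro i hi
        rw [Finset.mem_product]
        exact ⟨Finset.mem_image_of_mem _ hi, Finset.mem_univ _⟩
      have := Finset.card_le_card this
      rwa [Finset.card_product, Finset.card_univ, Fintype.card_bool] at this
    set A : Set G := ⋃ d ∈ F, (d : G) • U with hA
    have hAc : IsCompact A := F.isCompact_biUnion fun d _ => hUc.smul _
    -- lower bound
    have hlow : (F.card : ℝ) * (ν V).toReal ≤ (ν A).toReal := by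
      have e1 : ν (⋃ d ∈ F, (d : G) • V) = F.card * ν V := by
        rw [measure_biUnion_finset]
        · simp [measure_smul]
        · intro d _ d' _ hne
          exact hD d.2 d'.2 (fun h => hne (Subtype.ext h))
        · intro d _
          exact (hVc.smul _).measurableSet
      have e2 : ν (⋃ d ∈ F, (d : G) • V) ≤ ν A := by
        apply measure_mono
        apply Set.iUnion₂_mono
        intro d _
        exact Set.smul_set_mono hVU
      rw [e1] at e2
      have := ENNReal.toReal_mono hAc.measure_lt_top.ne e2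
      simpa using this
    have hApos : 0 < ν A := by
      by_contra h0
      have h0' : ν A = 0 := by simpa using h0
      rw [h0'] at hlow
      have : 0 < (F.card : ℝ) * (ν V).toReal := by
        have := hFne.card_pos
        positivity
      simp at hlow
      linarith
    -- upper bound
    have hup : (ν ((S : Set G) * A)).toReal ≤ (Z.card : ℝ) * (ν W).toReal := by
      have hsub : (S : Set G) * A ⊆ ⋃ z ∈ Z, ((z.2 : G) * (z.1.1 : G)) • W := by
        rintro _ ⟨s, hs, a, ha, rfl⟩
        rw [hA, Set.mem_iUnion₂] at ha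
        obtain ⟨d, hd, u, hu, rfl⟩ := ha
        obtain ⟨i, hi, rfl⟩ := Finset.mem_image.1 hd
        obtain ⟨z, hz, hadj⟩ := hcon i hi ⟨s, hs⟩
        rw [Set.mem_iUnion₂]
        refine ⟨z, hz, ?_⟩
        obtain ⟨y, ⟨u1, hu1, hy1⟩, ⟨u2, hu2, hy2⟩⟩ := Set.not_disjoint_iff.1 hadj
        simp only [smul_eq_mul] at hy1 hy2
        refine ⟨u2 * u1⁻¹ * u, ⟨u2 * u1⁻¹, ⟨u2, hu2, u1⁻¹, by simpa using hu1, rfl⟩, u, hu,
          rfl⟩, ?_⟩
        simp only [smul_eq_mul]
        rw [← mul_assoc, ← mul_assoc, hy2, ← hy1]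
        group
      have h1 : ν ((S : Set G) * A) ≤ Z.card * ν W := by
        refine (measure_mono hsub).trans ((measure_biUnion_finset_le _ _).trans ?_)
        simp [measure_smul]
      have := ENNReal.toReal_mono (ENNReal.mul_ne_top (by simp) hWc.measure_lt_top.ne) h1
      simpa using this
    have hexp := hS A hAc hApos
    have hFpos : 0 < (F.card : ℝ) := by
      have := hFne.card_pos
      positivity
    have hZc : (Z.card : ℝ) ≤ 4 * F.card := by
      have : Z.card ≤ 4 * F.card := by omega
      exact_mod_cast this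
    have hW0 : 0 ≤ (ν W).toReal := ENNReal.toReal_nonneg
    have h3 : (4 * (ν W).toReal / (ν V).toReal + 1) * ((F.card : ℝ) * (ν V).toReal) ≤
        4 * F.card * (ν W).toReal := by
      calc (4 * (ν W).toReal / (ν V).toReal + 1) * ((F.card : ℝ) * (ν V).toReal)
          ≤ (4 * (ν W).toReal / (ν V).toReal + 1) * (ν A).toReal := by gcongr
        _ ≤ _ := hexp
        _ ≤ _ := hup
        _ ≤ _ := by gcongr
    have h4 : (4 * (ν W).toReal / (ν V).toReal + 1) * ((F.card : ℝ) * (ν V).toReal) =
        4 * F.card * (ν W).toReal + F.card * (ν V).toReal := by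
      field_simp
    rw [h4] at h3
    have : 0 < (F.card : ℝ) * (ν V).toReal := by positivity
    linarith)
  refine ⟨U, D, S, f, hUc.isClosed, locFin ν V hVc hV1 hVpos U hUc D hD, ?_, ?_⟩
  · intro x
    obtain ⟨d, hd, hx⟩ := hcov x
    exact ⟨⟨d, hd⟩, hx⟩
  · intro i j hij
    have := hf i j hij
    simpa only [adj, not_not] using this

/-- Paradoxical decomposition with closed pieces. -/
theorem paradox (hna : ¬ HasMean G) :
    ∃ (n m : ℕ) (A : Fin n → Set G) (B : Fin m → Set G) (g : Fin n → G) (h : Fin m → G),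
          (∀ i, IsClosed (A i)) ∧ (∀ j, IsClosed (B j)) ∧
          (∀ i i', i ≠ i' → Disjoint (A i) (A i')) ∧
          (∀ j j', j ≠ j' → Disjoint (B j) (B j')) ∧
          (∀ i j, Disjoint (A i) (B j)) ∧
          (⋃ i, (fun x => g i * x) '' A i) = Set.univ ∧
          (⋃ j, (fun x => h j * x) '' B j) = Set.univ := by
  classical
  obtain ⟨U, D, S, f, hU, hloc, hcov, hdis⟩ := packing hna
  let P : Bool → S → Set G := fun b s => ⋃ d : {d : D // f (d, b) = s}, ((d : D) : G) • U
  have hPc : ∀ b s, IsClosed (P b s) := by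
    intro b s
    apply LocallyFinite.isClosed_iUnion
    · exact hloc.comp_injective (g := fun d : {d : D // f (d, b) = s} => (d : D))
        Subtype.val_injective
    · intro d
      exact hU.smul _
  let A : Bool → S → Set G := fun b s => (s : G) • P b s
  have hmem : ∀ b s x, x ∈ A b s → ∃ d : D, f (d, b) = s ∧ x ∈ ((s : G) * (d : G)) • U := by
    rintro b s x ⟨y, hy, rfl⟩
    obtain ⟨d, hd⟩ := Set.mem_iUnion.1 hy
    refine ⟨d, d.2, ?_⟩
    rw [mul_smul]
    exact Set.smul_mem_smul_set hd
  have hAdis : ∀ b s b' s', (b, s) ≠ (b', s') → Disjoint (A b s) (A b' s') := by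
    intro b s b' s' hne
    rw [Set.disjoint_left]
    intro x hx hx'
    obtain ⟨d, hd, hxd⟩ := hmem b s x hx
    obtain ⟨d', hd', hxd'⟩ := hmem b' s' x hx'
    have hij : (d, b) ≠ (d', b') := by
      intro e
      apply hne
      rw [Prod.mk.injEq] at e ⊢
      refine ⟨e.2, ?_⟩
      rw [← hd, ← hd', e.1, e.2]
    have := hdis _ _ hij
    rw [Set.disjoint_left] at this
    refine this (a := x) ?_ ?_
    · rw [hd]; exact hxd
    · rw [hd']; exact hxd'
  have hcover : ∀ b, (⋃ s : S, (fun x => (s : G)⁻¹ * x) '' A b s) = Set.univ := by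
    intro b
    apply Set.eq_univ_of_forall
    intro x
    obtain ⟨d, hd⟩ := hcov x
    rw [Set.mem_iUnion]
    refine ⟨f (d, b), (f (d, b) : G) * x, ?_, by group⟩
    apply Set.smul_mem_smul_set
    exact Set.mem_iUnion.2 ⟨⟨d, rfl⟩, hd⟩
  let e : Fin (Fintype.card S) ≃ S := (Fintype.equivFin S).symm
  refine ⟨Fintype.card S, Fintype.card S, fun i => A false (e i), fun i => A true (e i),
    fun i => (e i : G)⁻¹, fun i => (e i : G)⁻¹, ?_, ?_, ?_, ?_, ?_, ?_, ?_⟩
  · exact fun i => (hPc _ _).smul _
  · exact fun i => (hPc _ _).smul _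
  · intro i i' hne
    exact hAdis _ _ _ _ (fun h => hne (e.injective (Prod.mk.inj h).2))
  · intro i i' hne
    exact hAdis _ _ _ _ (fun h => hne (e.injective (Prod.mk.inj h).2))
  · intro i j
    exact hAdis _ _ _ _ (fun h => by simpa using (Prod.mk.inj h).1)
  · rw [← hcover false]
    exact e.surjective.iUnion_comp (fun s : S => (fun x => (s : G)⁻¹ * x) '' A false s)
  · rw [← hcover true]
    exact e.surjective.iUnion_comp (fun s : S => (fun x => (s : G)⁻¹ * x) '' A true s)

end Pool.Agent.H931R2.BorelTarski
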